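import Pool.Agent.U260.GZ.Stm

set_option autoImplicit false

/-!
Project GZ, package GAM: Stirling's upper bound for the Gamma function on vertical lines.
-/

namespace Pool.Agent.U187.GZ

open Complex Pool.Agent.N879.GD

lemma sinh_low {t : ℝ} (ht : 0 < t) :
    Real.pi * t / Real.sinh (Real.pi * t) ≤ 2 * Real.pi * (1 + t) * Real.exp (-(Real.pi * t)) := by
  have hpi := Real.pi_pos
  have hpi3 := Real.pi_gt_three
  have hx : 0 < Real.pi * t := by positivity
  have hs : 0 < Real.sinh (Real.pi * t) := Real.sinh_pos_iff.2 hx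
  rw [div_le_iff₀ hs, Real.sinh_eq]
  have h1 : 1 + 2 * (Real.pi * t) ≤ Real.exp (2 * (Real.pi * t)) := by
    have := Real.add_one_le_exp (2 * (Real.pi * t))
    linarith
  -- put `E = exp (π t)`, `e = exp (-π t)`, `E e = 1`
  have hE : 0 < Real.exp (Real.pi * t) := Real.exp_pos _
  have he : 0 < Real.exp (-(Real.pi * t)) := Real.exp_pos _
  have hEe : Real.exp (Real.pi * t) * Real.exp (-(Real.pi * t)) = 1 := by
    rw [← Real.exp_add]; simp
  have hee : Real.exp (-(Real.pi * t)) * Real.exp (-(Real.pi * t)) * Real.exp (2 * (Real.pi * t)) = 1 := by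
    rw [← Real.exp_add, ← Real.exp_add]
    simp
    ring
  set e := Real.exp (-(Real.pi * t)) with hedef
  set E := Real.exp (Real.pi * t) with hEdef
  set Q := Real.exp (2 * (Real.pi * t)) with hQdef
  have h2 : (1 + 2 * (Real.pi * t)) * (e * e) ≤ 1 := by
    have : (1 + 2 * (Real.pi * t)) * (e * e) ≤ Q * (e * e) := by
      apply mul_le_mul_of_nonneg_right h1 (by positivity)
    nlinarith
  have h3 : 2 * Real.pi * (1 + t) * e * ((E - e) / 2) = Real.pi * (1 + t) * (1 - e * e) := by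
    have : e * E = 1 := by rw [mul_comm]; exact hEe
    linear_combination (Real.pi * (1 + t)) * this
  rw [h3]
  have h4 : 0 < 1 + 2 * (Real.pi * t) := by positivity
  have h5 : 2 * (Real.pi * t) / (1 + 2 * (Real.pi * t)) ≤ 1 - e * e := by
    rw [div_le_iff₀ h4]
    nlinarith
  have h6 : Real.pi * t ≤ Real.pi * (1 + t) * (2 * (Real.pi * t) / (1 + 2 * (Real.pi * t))) := by
    rw [← mul_div_assoc, le_div_iff₀ h4]
    nlinarith [mul_pos hpi ht, mul_pos (mul_pos hpi ht) hpi]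
  exact h6.trans (mul_le_mul_of_nonneg_left h5 (by positivity))

lemma gam_one_sq {w : ℝ} (hw : w ≠ 0) :
    ‖Gamma (1 - I * w)‖ ^ 2 = Real.pi * |w| / Real.sinh (Real.pi * |w|) := by
  have hI : I * (w : ℂ) ≠ 0 := mul_ne_zero I_ne_zero (by exact_mod_cast hw)
  have h1 : Gamma (I * w) * Gamma (1 - I * w) = Real.pi / Complex.sin (Real.pi * (I * w)) :=
    Complex.Gamma_mul_Gamma_one_sub _
  have h2 : Gamma (I * w + 1) = I * w * Gamma (I * w) := Complex.Gamma_add_one _ hI
  have h3 : (starRingEnd ℂ) (Gamma (1 - I * w)) = Gamma (I * w + 1) := by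
    rw [← Complex.Gamma_conj]
    congr 1
    simp [sub_neg_eq_add, add_comm]
  have h4 : ((‖Gamma (1 - I * w)‖ ^ 2 : ℝ) : ℂ) = Gamma (1 - I * w) * Gamma (I * w + 1) := by
    rw [← h3, Complex.mul_conj, Complex.normSq_eq_norm_sq]
  have h5 : Complex.sin (Real.pi * (I * w)) = ((Real.sinh (Real.pi * w) : ℝ) : ℂ) * I := by
    have : (Real.pi : ℂ) * (I * w) = ((Real.pi * w : ℝ) : ℂ) * I := by push_cast; ring
    rw [this, Complex.sin_mul_I, Complex.ofReal_sinh]
  have hsw : Real.sinh (Real.pi * w) ≠ 0 := by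
    rw [Ne, Real.sinh_eq_zero]
    exact mul_ne_zero Real.pi_ne_zero hw
  have h6 : Gamma (1 - I * w) * Gamma (I * w + 1) = ((Real.pi * w / Real.sinh (Real.pi * w) : ℝ) : ℂ) := by
    rw [h2]
    have : Gamma (1 - I * w) * (I * w * Gamma (I * w)) = I * w * (Gamma (I * w) * Gamma (1 - I * w)) := by
      ring
    rw [this, h1, h5]
    have hs' : ((Real.sinh (Real.pi * w) : ℝ) : ℂ) ≠ 0 := by exact_mod_cast hsw
    push_cast
    push_cast at hs'
    field_simp
  have h7 : ‖Gamma (1 - I * w)‖ ^ 2 = Real.pi * w / Real.sinh (Real.pi * w) := by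
    have := h4.trans h6
    exact_mod_cast this
  rw [h7]
  rcases le_total 0 w with h | h
  · rw [abs_of_nonneg h]
  · rw [abs_of_nonpos h, mul_neg, Real.sinh_neg, neg_div_neg_eq]

lemma gam_one (w : ℝ) :
    ‖Gamma (1 - I * w)‖ ≤ √(2 * Real.pi) * (1 + |w|) ^ ((1 : ℝ) / 2) * Real.exp (-(Real.pi * |w| / 2)) := by
  have hpi := Real.pi_gt_three
  have key : ‖Gamma (1 - I * w)‖ ^ 2 ≤ 2 * Real.pi * (1 + |w|) * Real.exp (-(Real.pi * |w|)) := by
    by_cases hw : w = 0
    · subst hw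
      simp
      linarith
    · rw [gam_one_sq hw]
      exact sinh_low (abs_pos.2 hw)
  have hpos : 0 ≤ √(2 * Real.pi) * (1 + |w|) ^ ((1 : ℝ) / 2) * Real.exp (-(Real.pi * |w| / 2)) := by
    positivity
  refine le_of_sq_le_sq ?_ hpos
  refine key.trans (le_of_eq ?_)
  rw [mul_pow, mul_pow, Real.sq_sqrt (by positivity), ← Real.sqrt_eq_rpow, Real.sq_sqrt (by positivity),
    ← Real.exp_nat_mul]
  congr 2
  push_cast
  ring

/-- GAM: Stirling's upper bound on vertical lines -/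
theorem t_GAM : S_GAM := by
  intro b hb
  induction b, hb using Nat.le_induction with
  | base =>
    refine ⟨√(2 * Real.pi), by positivity, fun w => ?_⟩
    have h := gam_one w
    have e : ((1 : ℕ) : ℝ) - 1 / 2 = 1 / 2 := by norm_num
    rw [e, Nat.cast_one]
    exact h
  | succ b hb ih =>
    obtain ⟨C, hC, h⟩ := ih
    have hb0 : (0 : ℝ) < b := by exact_mod_cast hb
    have hb1 : (1 : ℝ) ≤ b := by exact_mod_cast hb
    refine ⟨C * b, by positivity, fun w => ?_⟩
    have hne : (b : ℂ) - I * w ≠ 0 := by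
      intro hc
      have := congrArg Complex.re hc
      simp at this
      omega
    have e1 : ((b + 1 : ℕ) : ℂ) - I * w = ((b : ℂ) - I * w) + 1 := by push_cast; ring
    rw [e1, Complex.Gamma_add_one _ hne, norm_mul]
    have h1 : ‖(b : ℂ) - I * w‖ ≤ b * (1 + |w|) := by
      calc ‖(b : ℂ) - I * w‖ ≤ ‖(b : ℂ)‖ + ‖I * (w : ℂ)‖ := norm_sub_le _ _
        _ = b + |w| := by simp
        _ ≤ b * (1 + |w|) := by nlinarith [abs_nonneg w]
    have hw1 : 0 < 1 + |w| := by positivity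
    have e2 : (1 + |w|) ^ (((b + 1 : ℕ) : ℝ) - 1 / 2) = (1 + |w|) * (1 + |w|) ^ ((b : ℝ) - 1 / 2) := by
      have : ((b + 1 : ℕ) : ℝ) - 1 / 2 = 1 + ((b : ℝ) - 1 / 2) := by push_cast; ring
      rw [this, Real.rpow_add hw1, Real.rpow_one]
    rw [e2]
    calc ‖(b : ℂ) - I * w‖ * ‖Gamma ((b : ℂ) - I * w)‖
        ≤ (b * (1 + |w|)) * (C * (1 + |w|) ^ ((b : ℝ) - 1 / 2) * Real.exp (-(Real.pi * |w| / 2))) := by
          gcongr
          exact h w
      _ = C * b * ((1 + |w|) * (1 + |w|) ^ ((b : ℝ) - 1 / 2)) * Real.exp (-(Real.pi * |w| / 2)) := by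
          ring

end Pool.Agent.U187.GZ
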